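import Pool.Agent.Helper46.T5.Stmts

set_option autoImplicit false

/-! Module SEP of the project T5: a product determines the matching and the factors. -/

open Finset

namespace Pool.Agent.Helper74.T5

open Pool.Agent.Helper46.T5 Pool.Agent.Helper15.T4

theorem nz (M : M3) (h : M.det = 1) : ∃ i j, M i j ≠ 0 := by
  by_contra hc
  push Not at hc
  have h0 : M = 0 := by
    ext i j
    exact hc i j
  rw [h0, Matrix.det_zero] at h
  exact zero_ne_one h

theorem minor_det (M : M3) (h : ∀ x y x' y', M x y * M x' y' = M x y' * M x' y) : M.det = 0 := by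
  rw [Matrix.det_fin_three]
  linear_combination M 0 0 * h 1 1 2 2 - M 0 1 * h 1 0 2 2 + M 0 2 * h 1 0 2 1

theorem s3 : Real.sqrt 3 ≠ 0 := by
  have : (0 : ℝ) < Real.sqrt 3 := Real.sqrt_pos.mpr (by norm_num)
  exact this.ne'

section

set_option linter.unusedSectionVars false

variable {K : ℕ} {J : Type} [Fintype J] [DecidableEq J]

/-- one factor -/
noncomputable def fac (φ : Fin K × Fin 2 ≃ J) (O : Fin K → M3) (p : Fin K) (a : J → Fin 3) : ℝ :=
  O p (a (φ (p, 0))) (a (φ (p, 1))) / Real.sqrt 3

theorem pt_fac (φ : Fin K × Fin 2 ≃ J) (O : Fin K → M3) (a : J → Fin 3) :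
    pt φ O a = ∏ p, fac φ O p a := rfl

/-- the point of nonzero entries -/
theorem exists_nz (φ : Fin K × Fin 2 ≃ J) (O : Fin K → M3) (hO : ∀ p, SO3 (O p)) :
    ∃ a : J → Fin 3, ∀ p, fac φ O p a ≠ 0 := by
  choose r c hrc using fun p => nz (O p) (hO p).2
  refine ⟨fun j => if (φ.symm j).2 = 0 then r (φ.symm j).1 else c (φ.symm j).1, fun p => ?_⟩
  have h0 : (if (φ.symm (φ (p, 0))).2 = 0 then r (φ.symm (φ (p, 0))).1
      else c (φ.symm (φ (p, 0))).1) = r p := by
    rw [Equiv.symm_apply_apply]
    exact if_pos rfl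
  have h1 : (if (φ.symm (φ (p, 1))).2 = 0 then r (φ.symm (φ (p, 1))).1
      else c (φ.symm (φ (p, 1))).1) = c p := by
    rw [Equiv.symm_apply_apply]
    exact if_neg (one_ne_zero)
  have h2 : O p (if (φ.symm (φ (p, 0))).2 = 0 then r (φ.symm (φ (p, 0))).1
      else c (φ.symm (φ (p, 0))).1) (if (φ.symm (φ (p, 1))).2 = 0 then r (φ.symm (φ (p, 1))).1
      else c (φ.symm (φ (p, 1))).1) ≠ 0 := by
    rw [h0, h1]
    exact hrc p
  exact div_ne_zero h2 s3

theorem fac_upd (φ : Fin K × Fin 2 ≃ J) (O : Fin K → M3) (p : Fin K) (a : J → Fin 3) (j : J)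
    (x : Fin 3) (h : (φ.symm j).1 ≠ p) : fac φ O p (Function.update a j x) = fac φ O p a := by
  have h0 : φ (p, 0) ≠ j := by
    rintro rfl
    exact h (by simp)
  have h1 : φ (p, 1) ≠ j := by
    rintro rfl
    exact h (by simp)
  unfold fac
  rw [Function.update_of_ne h0, Function.update_of_ne h1]

/-- two coordinates in different blocks -/
theorem minor_pt (φ : Fin K × Fin 2 ≃ J) (O : Fin K → M3) (a : J → Fin 3) (j j' : J)
    (hjj : j ≠ j') (h : (φ.symm j).1 ≠ (φ.symm j').1) (x y x' y' : Fin 3) :
    pt φ O (Function.update (Function.update a j x) j' y) *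
      pt φ O (Function.update (Function.update a j x') j' y') =
    pt φ O (Function.update (Function.update a j x) j' y') *
      pt φ O (Function.update (Function.update a j x') j' y) := by
  simp only [pt_fac]
  rw [← Finset.prod_mul_distrib, ← Finset.prod_mul_distrib]
  refine Finset.prod_congr rfl fun p _ => ?_
  by_cases hp : (φ.symm j').1 = p
  · have h2 : (φ.symm j).1 ≠ p := by
      rw [← hp]
      exact h
    have e : ∀ x y, fac φ O p (Function.update (Function.update a j x) j' y) =
        fac φ O p (Function.update a j' y) := by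
      intro x y
      rw [Function.update_comm hjj, fac_upd φ O p _ j x h2]
    rw [e, e, e, e]
    ring
  · have e : ∀ x y, fac φ O p (Function.update (Function.update a j x) j' y) =
        fac φ O p (Function.update a j x) := fun x y => fac_upd φ O p _ j' y hp
    rw [e, e, e, e]

/-- the value after changing one block -/
theorem pt_upd (φ : Fin K × Fin 2 ≃ J) (O : Fin K → M3) (a : J → Fin 3) (q : Fin K) (x y : Fin 3) :
    pt φ O (Function.update (Function.update a (φ (q, 0)) x) (φ (q, 1)) y) =
      O q x y / Real.sqrt 3 * ∏ p ∈ univ.erase q, fac φ O p a := by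
  rw [pt_fac, ← Finset.mul_prod_erase univ _ (Finset.mem_univ q)]
  have hne : φ (q, 0) ≠ φ (q, 1) := by
    intro h
    have := φ.injective h
    simp at this
  congr 1
  · unfold fac
    rw [Function.update_self, Function.update_of_ne hne, Function.update_self]
  · refine Finset.prod_congr rfl fun p hp => ?_
    have hpq : q ≠ p := (Finset.ne_of_mem_erase hp).symm
    rw [fac_upd φ O p _ _ y (by simpa using hpq), fac_upd φ O p _ _ x (by simpa using hpq)]

/-- the blocks agree -/
theorem blocks (φ φ' : Fin K × Fin 2 ≃ J) (O O' : Fin K → M3) (s : ℝ)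
    (hO : ∀ p, SO3 (O p)) (h : ∀ a, pt φ O a = s * pt φ' O' a) (q : Fin K) :
    (φ'.symm (φ (q, 0))).1 = (φ'.symm (φ (q, 1))).1 := by
  by_contra hne
  have hjj : φ (q, 0) ≠ φ (q, 1) := by
    intro h
    have := φ.injective h
    simp at this
  obtain ⟨a, ha⟩ := exists_nz φ O hO
  have hR : (∏ p ∈ univ.erase q, fac φ O p a) ≠ 0 := Finset.prod_ne_zero_iff.mpr fun p _ => ha p
  have hdet : (O q).det = 0 := by
    apply minor_det
    intro x y x' y'
    have h1 := minor_pt φ' O' a _ _ hjj hne x y x' y'
    have h2 : pt φ O (Function.update (Function.update a (φ (q, 0)) x) (φ (q, 1)) y) *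
        pt φ O (Function.update (Function.update a (φ (q, 0)) x') (φ (q, 1)) y') =
        pt φ O (Function.update (Function.update a (φ (q, 0)) x) (φ (q, 1)) y') *
        pt φ O (Function.update (Function.update a (φ (q, 0)) x') (φ (q, 1)) y) := by
      rw [h, h, h, h]
      linear_combination s ^ 2 * h1
    rw [pt_upd, pt_upd, pt_upd, pt_upd] at h2
    have h3 : (O q x y * O q x' y' - O q x y' * O q x' y) *
        ((∏ p ∈ univ.erase q, fac φ O p a) / Real.sqrt 3) ^ 2 = 0 := by
      linear_combination h2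
    have h4 : ((∏ p ∈ univ.erase q, fac φ O p a) / Real.sqrt 3) ^ 2 ≠ 0 :=
      pow_ne_zero 2 (div_ne_zero hR s3)
    have h5 := (mul_eq_zero.mp h3).resolve_right h4
    linarith
  rw [(hO q).2] at hdet
  exact one_ne_zero hdet

/-- equal matchings: equal factors -/
theorem factors (φ : Fin K × Fin 2 ≃ J) (O N : Fin K → M3) (s : ℝ)
    (hO : ∀ p, (O p).det = 1) (hN : ∀ p, (N p).det = 1) (hNz : ∃ a, ∀ p, fac φ N p a ≠ 0)
    (hs : s ≠ 0) (h : ∀ a, pt φ O a = s * pt φ N a) :
    s = 1 ∧ ∀ p, O p = N p := by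
  obtain ⟨a, ha⟩ := hNz
  have hFN : pt φ N a ≠ 0 := Finset.prod_ne_zero_iff.mpr fun p _ => ha p
  have hF : pt φ O a ≠ 0 := by
    rw [h]
    exact mul_ne_zero hs hFN
  have hfO : ∀ p, fac φ O p a ≠ 0 := fun p => by
    have := Finset.prod_ne_zero_iff.mp hF
    exact this p (Finset.mem_univ p)
  have hall : ∀ p, O p = N p := by
    intro q
    have hR : (∏ p ∈ univ.erase q, fac φ O p a) ≠ 0 :=
      Finset.prod_ne_zero_iff.mpr fun p _ => hfO p
    set R := ∏ p ∈ univ.erase q, fac φ O p a with hRd
    set R' := ∏ p ∈ univ.erase q, fac φ N p a with hRd'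
    have hc : O q = (s * R' / R) • N q := by
      ext x y
      have h1 := h (Function.update (Function.update a (φ (q, 0)) x) (φ (q, 1)) y)
      rw [pt_upd, pt_upd, ← hRd, ← hRd'] at h1
      rw [Matrix.smul_apply, smul_eq_mul]
      have h3 := s3
      field_simp at h1 ⊢
      linarith
    have hd := hO q
    rw [hc, Matrix.det_smul, hN q, Fintype.card_fin, mul_one] at hd
    have hc1 : s * R' / R = 1 := by
      set c := s * R' / R
      have h1 : (c - 1) * (c ^ 2 + c + 1) = 0 := by linear_combination hd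
      have h2 : c ^ 2 + c + 1 ≠ 0 := by nlinarith [sq_nonneg (c + 1 / 2)]
      have h3 := (mul_eq_zero.mp h1).resolve_right h2
      linarith
    rw [hc, hc1, one_smul]
  refine ⟨?_, hall⟩
  have hON : O = N := funext hall
  have h1 := h a
  rw [hON] at h1
  have h2 : (s - 1) * pt φ N a = 0 := by linear_combination -h1
  have h3 := (mul_eq_zero.mp h2).resolve_right hFN
  linarith

end

theorem st_SEP : ST_SEP := by
  intro K J _ _ φ φ' O O' s hO hO' hs h
  have hs0 : s ≠ 0 := by
    rcases hs with rfl | rfl <;> norm_num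
  have hb := blocks φ φ' O O' s hO h
  set e0 : Fin K → Fin K := fun p => (φ'.symm (φ (p, 0))).1 with he0
  set fl : Fin K → Fin 2 := fun p => (φ'.symm (φ (p, 0))).2 with hfl
  have h0 : ∀ p, φ (p, 0) = φ' (e0 p, fl p) := fun p => by
    simp [he0, hfl]
  have h1 : ∀ p, φ (p, 1) = φ' (e0 p, 1 + fl p) := fun p => by
    have h2 : φ (p, 1) = φ' (e0 p, (φ'.symm (φ (p, 1))).2) := by
      have h3 : (e0 p, (φ'.symm (φ (p, 1))).2) = φ'.symm (φ (p, 1)) := by
        rw [he0]
        exact Prod.ext (hb p) rfl
      rw [h3, Equiv.apply_symm_apply]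
    have h4 : (φ'.symm (φ (p, 1))).2 ≠ fl p := by
      intro h5
      rw [h5, ← h0 p] at h2
      have := φ.injective h2
      simp at this
    have h6 : ∀ i j : Fin 2, i ≠ j → i = 1 + j := by decide
    rw [h2, h6 _ _ h4]
  have hall : ∀ p i, φ (p, i) = φ' (e0 p, i + fl p) := by
    intro p i
    have hi : i = 0 ∨ i = 1 := by
      revert i
      decide
    rcases hi with rfl | rfl
    · rw [h0, zero_add]
    · rw [h1]
  have hinj : Function.Injective e0 := by
    intro p p' hpp
    have h2 : φ (p, fl p + fl p') = φ (p', 0) := by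
      rw [hall, hall, hpp, zero_add]
      congr 2
      have : ∀ a b : Fin 2, a + b + a = b := by decide
      exact this _ _
    have := φ.injective h2
    exact congrArg Prod.fst this
  let e : Equiv.Perm (Fin K) := Equiv.ofBijective e0 (Finite.injective_iff_bijective.mp hinj)
  set N : Fin K → M3 := fun p => if fl p = 0 then O' (e p) else (O' (e p)).transpose with hN
  have hNdet : ∀ p, (N p).det = 1 := by
    intro p
    rw [hN]
    dsimp only
    split_ifs
    · exact (hO' _).2
    · rw [Matrix.det_transpose]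
      exact (hO' _).2
  have hfac : ∀ p a, fac φ N p a = fac φ' O' (e p) a := by
    intro p a
    unfold fac
    rw [h0, h1, hN]
    dsimp only
    have hi : fl p = 0 ∨ fl p = 1 := by
      generalize fl p = i
      revert i
      decide
    rcases hi with hi | hi
    · rw [if_pos hi, hi]
      rfl
    · rw [if_neg (by rw [hi]; decide), hi]
      rfl
  have hpt : ∀ a, pt φ' O' a = pt φ N a := by
    intro a
    rw [pt_fac, pt_fac, ← Equiv.prod_comp e]
    exact Finset.prod_congr rfl fun p _ => (hfac p a).symm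
  have hNz : ∃ a, ∀ p, fac φ N p a ≠ 0 := by
    obtain ⟨a, ha⟩ := exists_nz φ' O' hO'
    exact ⟨a, fun p => by rw [hfac]; exact ha _⟩
  have hfin := factors φ O N s (fun p => (hO p).2) hNdet hNz hs0
    (fun a => by rw [h a, hpt])
  exact ⟨hfin.1, e, fl, hall, hfin.2⟩

end Pool.Agent.Helper74.T5
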